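import Pool.Agent.H24.RD.Targets
import Pool.Agent.H29.Bogo.HeightLower

/-!
# The absolute height is the normalised height of any number field, module HA
-/

set_option autoImplicit false

namespace Pool.Agent.H65.RD

open Pool.Agent.H24.RD NumberField Height Finset IntermediateField

theorem pf_HA : T_HF → T_HA := by
  intro hHF K Ω _ _ _ _ _ x
  have hxi : IsIntegral ℚ x := Algebra.IsIntegral.isIntegral x
  have hy : IsIntegral ℚ (algebraMap K Ω x) := hxi.algebraMap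
  have hfd : FiniteDimensional ℚ ℚ⟮algebraMap K Ω x⟯ := adjoin.finiteDimensional hy
  have hnf : NumberField ℚ⟮algebraMap K Ω x⟯ := {}
  have hmem : x ∈ (minpoly ℚ (algebraMap K Ω x)).aroots K := by
    rw [Polynomial.mem_aroots]
    refine ⟨minpoly.ne_zero hy, ?_⟩
    rw [minpoly.algebraMap_eq (algebraMap K Ω).injective]
    exact minpoly.aeval ℚ x
  obtain ⟨φ, hφ⟩ : ∃ φ : ℚ⟮algebraMap K Ω x⟯ →ₐ[ℚ] K,
      φ (AdjoinSimple.gen ℚ (algebraMap K Ω x)) = x :=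
    ⟨(algHomAdjoinIntegralEquiv ℚ hy).symm ⟨x, hmem⟩,
      algHomAdjoinIntegralEquiv_symm_apply_gen ℚ hy ⟨x, hmem⟩⟩
  let _ : Algebra ℚ⟮algebraMap K Ω x⟯ K := φ.toRingHom.toAlgebra
  have hst : IsScalarTower ℚ ℚ⟮algebraMap K Ω x⟯ K :=
    IsScalarTower.of_algebraMap_eq fun q => (φ.commutes q).symm
  have h1 := hHF ℚ⟮algebraMap K Ω x⟯ K (AdjoinSimple.gen ℚ (algebraMap K Ω x))
  have h2 : algebraMap ℚ⟮algebraMap K Ω x⟯ K (AdjoinSimple.gen ℚ (algebraMap K Ω x)) = x := hφ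
  rw [h2] at h1
  have hfd2 : FiniteDimensional ℚ⟮algebraMap K Ω x⟯ K :=
    Module.Finite.of_restrictScalars_finite ℚ ℚ⟮algebraMap K Ω x⟯ K
  have h3 : Module.finrank ℚ ℚ⟮algebraMap K Ω x⟯ * Module.finrank ℚ⟮algebraMap K Ω x⟯ K
      = Module.finrank ℚ K := Module.finrank_mul_finrank _ _ _
  rw [Pool.Agent.H29.Bogo.absLogHeight_eq (algebraMap K Ω x) hy, h1, ← h3,
    ← logHeight₁_eq_log_mulHeight₁]
  have h4 : (0 : ℝ) < Module.finrank ℚ ℚ⟮algebraMap K Ω x⟯ := by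
    exact_mod_cast Module.finrank_pos
  have h5 : (0 : ℝ) < Module.finrank ℚ⟮algebraMap K Ω x⟯ K := by
    exact_mod_cast Module.finrank_pos
  push_cast
  field_simp

end Pool.Agent.H65.RD
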