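import Pool.Agent.H24.RD.Targets

/-!
# The rules for the absolute height, module HB
-/

set_option autoImplicit false

namespace Pool.Agent.H65.RD

open Pool.Agent.H24.RD NumberField Height Finset IntermediateField

theorem pf_HB : T_HA → T_HB := by
  intro hHA Ω _ _ _
  have hint : ∀ x : Ω, IsIntegral ℚ x := fun x => Algebra.IsIntegral.isIntegral x
  -- a number field which contains two given elements
  have hK : ∀ x y : Ω, ∃ (K : IntermediateField ℚ Ω) (_ : NumberField K), x ∈ K ∧ y ∈ K := by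
    intro x y
    have hfd : FiniteDimensional ℚ (IntermediateField.adjoin ℚ ({x, y} : Set Ω)) :=
      IntermediateField.finiteDimensional_adjoin fun z _ => hint z
    exact ⟨IntermediateField.adjoin ℚ {x, y}, {}, IntermediateField.subset_adjoin _ _ (by simp),
      IntermediateField.subset_adjoin _ _ (by simp)⟩
  have hin : ∀ (K : IntermediateField ℚ Ω) [NumberField K] (a : K),
      absLogHeight₁ (a : Ω) = logHeight₁ a / (Module.finrank ℚ K : ℝ) :=
    fun K _ a => hHA K Ω a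
  have h1 : ∀ x : Ω, 0 ≤ absLogHeight₁ x := by
    intro x
    obtain ⟨K, _, hx, -⟩ := hK x x
    have h := hin K ⟨x, hx⟩
    rw [show ((⟨x, hx⟩ : K) : Ω) = x from rfl] at h
    rw [h]
    exact div_nonneg (zero_le_logHeight₁ _) (Nat.cast_nonneg _)
  have h2 : ∀ x y : Ω, absLogHeight₁ (x * y) ≤ absLogHeight₁ x + absLogHeight₁ y := by
    intro x y
    obtain ⟨K, _, hx, hy⟩ := hK x y
    have ha := hin K ⟨x, hx⟩
    have hb := hin K ⟨y, hy⟩
    have hab := hin K (⟨x, hx⟩ * ⟨y, hy⟩)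
    rw [show ((⟨x, hx⟩ : K) : Ω) = x from rfl] at ha
    rw [show ((⟨y, hy⟩ : K) : Ω) = y from rfl] at hb
    rw [show ((⟨x, hx⟩ * ⟨y, hy⟩ : K) : Ω) = x * y from rfl] at hab
    rw [ha, hb, hab, ← add_div]
    exact div_le_div_of_nonneg_right (logHeight₁_mul_le _ _) (Nat.cast_nonneg _)
  have h3 : ∀ x : Ω, absLogHeight₁ x⁻¹ = absLogHeight₁ x := by
    intro x
    obtain ⟨K, _, hx, -⟩ := hK x x
    have ha := hin K ⟨x, hx⟩
    have hb := hin K (⟨x, hx⟩⁻¹)
    rw [show ((⟨x, hx⟩ : K) : Ω) = x from rfl] at ha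
    rw [show ((⟨x, hx⟩⁻¹ : K) : Ω) = x⁻¹ from rfl, logHeight₁_inv] at hb
    rw [ha, hb]
  have h4 : ∀ (x : Ω) (n : ℕ), absLogHeight₁ (x ^ n) = n * absLogHeight₁ x := by
    intro x n
    obtain ⟨K, _, hx, -⟩ := hK x x
    have ha := hin K ⟨x, hx⟩
    have hb := hin K (⟨x, hx⟩ ^ n)
    rw [show ((⟨x, hx⟩ : K) : Ω) = x from rfl] at ha
    rw [show ((⟨x, hx⟩ ^ n : K) : Ω) = x ^ n from rfl, logHeight₁_pow] at hb
    rw [ha, hb, mul_div_assoc]
  have h40 : absLogHeight₁ (1 : Ω) = 0 := by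
    have h := h4 1 0
    rw [pow_zero, Nat.cast_zero, zero_mul] at h
    exact h
  have h50 : ∀ (x : Ω) (n : ℕ), 0 < n → x ^ n = 1 → absLogHeight₁ x = 0 := by
    intro x n hn hx
    have h := h4 x n
    rw [hx, h40] at h
    have hn' : (n : ℝ) ≠ 0 := by exact_mod_cast hn.ne'
    rcases mul_eq_zero.1 h.symm with h' | h'
    · exact absurd h' hn'
    · exact h'
  have h5 : ∀ (x y : Ω) (n : ℕ), 0 < n → x ^ n = 1 → absLogHeight₁ (x * y) = absLogHeight₁ y := by
    intro x y n hn hx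
    have hx0 : x ≠ 0 := by
      rintro rfl
      rw [zero_pow hn.ne'] at hx
      exact zero_ne_one hx
    have ha := h50 x n hn hx
    apply le_antisymm
    · have h := h2 x y
      rw [ha, zero_add] at h
      exact h
    · have h := h2 x⁻¹ (x * y)
      rw [h3, ha, zero_add, inv_mul_cancel_left₀ hx0] at h
      exact h
  refine ⟨h1, h2, h3, h4, h5, ?_, ?_⟩
  · intro σ x
    obtain ⟨K, _, hx, -⟩ := hK x x
    have ha := hin K ⟨x, hx⟩
    rw [show ((⟨x, hx⟩ : K) : Ω) = x from rfl] at ha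
    have hb := @hHA K Ω _ _ _ _ ((σ : Ω →+* Ω).comp (algebraMap K Ω)).toAlgebra ⟨x, hx⟩
    rw [ha, ← hb]
    rfl
  · intro x hx0 hx
    obtain ⟨K, _, hxK, -⟩ := hK x x
    have ha := hin K ⟨x, hxK⟩
    rw [show ((⟨x, hxK⟩ : K) : Ω) = x from rfl, hx] at ha
    have hfr : (Module.finrank ℚ K : ℝ) ≠ 0 := by
      exact_mod_cast (Module.finrank_pos (R := ℚ) (M := K)).ne'
    have h0 : logHeight₁ (⟨x, hxK⟩ : K) = 0 := by
      rcases div_eq_zero_iff.1 ha.symm with h | h
      · exact h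
      · exact absurd h hfr
    have hfin := NumberField.finite_setOfPred_logHeight₁_le (K := K) 0
    have hmaps : Set.MapsTo (fun n : ℕ => (⟨x, hxK⟩ : K) ^ n) Set.univ {z : K | logHeight₁ z ≤ 0} := by
      intro n _
      change logHeight₁ ((⟨x, hxK⟩ : K) ^ n) ≤ 0
      rw [logHeight₁_pow, h0, mul_zero]
    obtain ⟨a, -, b, -, hab, heq⟩ :=
      Set.infinite_univ.exists_ne_map_eq_of_mapsTo hmaps hfin
    have hpow : x ^ a = x ^ b := congrArg (fun z : K => (z : Ω)) heq
    have hgen : ∀ a b : ℕ, a < b → x ^ a = x ^ b → ∃ n : ℕ, 0 < n ∧ x ^ n = 1 := by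
      intro a b hlt he
      refine ⟨b - a, by omega, ?_⟩
      have h6 : x ^ b = x ^ a * x ^ (b - a) := by
        rw [← pow_add]
        congr 1
        omega
      rw [h6] at he
      have h7 : x ^ a ≠ 0 := pow_ne_zero _ hx0
      exact (mul_left_cancel₀ h7 (by rw [mul_one]; exact he)).symm
    rcases lt_or_gt_of_ne hab with h | h
    · exact hgen a b h hpow
    · exact hgen b a h hpow.symm

end Pool.Agent.H65.RD
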