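import Pool.Agent.H24.RD.Targets
import Pool.Agent.H29.Bogo.HeightUpper

/-!
# Functoriality of the height of a number field, module HF
-/

set_option autoImplicit false

namespace Pool.Agent.H65.RD

open Pool.Agent.H24.RD NumberField Height Finset

theorem card_fibre (K L : Type) [Field K] [NumberField K] [Field L] [NumberField L] [Algebra K L]
    (φ : K →+* ℂ) [DecidablePred fun ψ : L →+* ℂ => ψ.comp (algebraMap K L) = φ] :
    (univ.filter (fun ψ : L →+* ℂ => ψ.comp (algebraMap K L) = φ)).card = Module.finrank K L := by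
  let _ : Algebra K ℂ := φ.toAlgebra
  have hfd : FiniteDimensional K L := Module.Finite.of_restrictScalars_finite ℚ K L
  let e : (L →ₐ[K] ℂ) ≃ {ψ : L →+* ℂ // ψ.comp (algebraMap K L) = φ} :=
    { toFun := fun f => ⟨f.toRingHom, by
        ext x
        exact f.commutes x⟩
      invFun := fun ψ => { ψ.1 with
        commutes' := fun x => by
          exact congrArg (fun g : K →+* ℂ => g x) ψ.2 }
      left_inv := fun f => by
        ext x
        rfl
      right_inv := fun ψ => by
        apply Subtype.ext
        ext x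
        rfl }
  rw [← Fintype.card_subtype, ← Fintype.card_congr e]
  exact AlgHom.card K L ℂ

theorem sum_places (K : Type) [Field K] [NumberField K] (f : ℝ → ℝ) (x : K) :
    ∑ v : InfinitePlace K, (v.mult : ℝ) * f (v x) = ∑ φ : K →+* ℂ, f ‖φ x‖ := by
  classical
  rw [← Finset.sum_fiberwise (s := (Finset.univ : Finset (K →+* ℂ))) (g := InfinitePlace.mk)]
  refine Finset.sum_congr rfl fun v _ => ?_
  have h1 : ∑ φ ∈ univ.filter (fun φ : K →+* ℂ => InfinitePlace.mk φ = v), f ‖φ x‖
      = ∑ φ ∈ univ.filter (fun φ : K →+* ℂ => InfinitePlace.mk φ = v), f (v x) := by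
    refine Finset.sum_congr rfl fun φ hφ => ?_
    have h2 : InfinitePlace.mk φ = v := (Finset.mem_filter.1 hφ).2
    rw [← h2, InfinitePlace.apply]
  rw [h1, Finset.sum_const, nsmul_eq_mul, InfinitePlace.card_filter_mk_eq]

theorem sum_places_algebraMap (K L : Type) [Field K] [NumberField K] [Field L] [NumberField L]
    [Algebra K L] (f : ℝ → ℝ) (x : K) :
    ∑ v : InfinitePlace L, (v.mult : ℝ) * f (v (algebraMap K L x))
      = (Module.finrank K L : ℝ) * ∑ v : InfinitePlace K, (v.mult : ℝ) * f (v x) := by
  classical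
  rw [sum_places, sum_places, Finset.mul_sum,
    ← Finset.sum_fiberwise (s := (Finset.univ : Finset (L →+* ℂ)))
      (g := fun ψ : L →+* ℂ => ψ.comp (algebraMap K L))]
  refine Finset.sum_congr rfl fun φ _ => ?_
  have h1 : ∑ ψ ∈ univ.filter (fun ψ : L →+* ℂ => ψ.comp (algebraMap K L) = φ),
      f ‖ψ (algebraMap K L x)‖
      = ∑ ψ ∈ univ.filter (fun ψ : L →+* ℂ => ψ.comp (algebraMap K L) = φ), f ‖φ x‖ := by
    refine Finset.sum_congr rfl fun ψ hψ => ?_
    have h2 : ψ.comp (algebraMap K L) = φ := (Finset.mem_filter.1 hψ).2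
    rw [← h2]
    rfl
  rw [h1, Finset.sum_const, nsmul_eq_mul, card_fibre]

theorem pf_HF : T_HF := by
  intro K L _ _ _ _ _ x
  rw [NumberField.logHeight₁_eq, NumberField.logHeight₁_eq, sum_places_algebraMap K L Real.posLog,
    mul_add]
  congr 1
  have hfin : ∀ (M : Type) [Field M] [NumberField M] (y : M),
      ∑ᶠ v : FinitePlace M, Real.posLog (v y) = Real.log (∏ᶠ v : FinitePlace M, max (v y) 1) := by
    intro M _ _ y
    have hs : (fun v : FinitePlace M => max (v y) 1).HasFiniteMulSupport := by
      rcases eq_or_ne y 0 with rfl | hy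
      · have : (fun v : FinitePlace M => max (v (0 : M)) 1) = fun _ => 1 := by
          funext v; simp
        rw [this]
        fun_prop
      · have hs1 : (fun v : FinitePlace M => v y).HasFiniteMulSupport :=
          FinitePlace.hasFiniteMulSupport hy
        fun_prop
    have hpos : ∀ v : FinitePlace M, 0 < max (v y) 1 := fun v => lt_max_of_lt_right one_pos
    rw [finprod_eq_prod_of_mulSupport_subset (s := hs.toFinset) _ (by simp),
      Real.log_prod (fun v _ => (hpos v).ne'),
      finsum_eq_sum_of_support_subset (s := hs.toFinset)]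
    · refine Finset.sum_congr rfl fun v _ => ?_
      rw [Real.posLog_eq_log_max_one (apply_nonneg v y), max_comm]
    · intro v hv
      rw [Set.Finite.coe_toFinset, Function.mem_mulSupport]
      intro h
      apply hv
      change Real.posLog (v y) = 0
      rw [Real.posLog_eq_log_max_one (apply_nonneg v y), max_comm, h, Real.log_one]
  rw [hfin, hfin, Pool.Agent.H29.Bogo.finprod_max_algebraMap, Real.log_pow]

end Pool.Agent.H65.RD
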